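import Pool.Agent.N783.CF.Stm2

/-!
# Project CF (helper783), piece TOW (helper531): relative extensions of an intermediate field
-/

set_option autoImplicit false

open NumberField

namespace Pool.Agent.N531.CF

open Pool.Agent.N783.CF

theorem t_TOW : S_FINF → S_TOW := by
  intro hF K _ _ M _ m X hm hX
  have : Algebra.IsAlgebraic M (AlgebraicClosure K) := Algebra.IsAlgebraic.tower_top (K := K) M
  have : IsAlgClosure M (AlgebraicClosure K) := ⟨inferInstance, inferInstance⟩
  obtain ⟨e⟩ : Nonempty (AlgebraicClosure M ≃ₐ[M] AlgebraicClosure K) :=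
    ⟨IsAlgClosure.equiv M (AlgebraicClosure M) (AlgebraicClosure K)⟩
  have hinj : Function.Injective (fun L : IntermediateField M (AlgebraicClosure M) =>
      (L.map e.toAlgHom).restrictScalars K) := fun L L' h =>
    IntermediateField.map_injective _ (IntermediateField.restrictScalars_injective K h)
  have hpos : 0 < Module.finrank K M := Module.finrank_pos
  have hfin := hF K (Module.finrank K M * m) X (by nlinarith) hX
  refine Set.ncard_le_ncard_of_injOn _ ?_ hinj.injOn hfin
  rintro L ⟨h1, h2, h3⟩
  have eL : L ≃+* (L.map e.toAlgHom).restrictScalars K :=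
    { toFun := fun x => ⟨e x.1, x.1, x.2, rfl⟩
      invFun := fun y => ⟨e.symm y.1, by
        obtain ⟨x, hx, hxy⟩ := y.2
        have : e.symm y.1 = x := by
          rw [← hxy]
          exact e.symm_apply_apply x
        rw [this]
        exact hx⟩
      left_inv := fun x => Subtype.ext (e.symm_apply_apply x.1)
      right_inv := fun y => Subtype.ext (e.apply_symm_apply y.1)
      map_mul' := fun x y => Subtype.ext (map_mul e x.1 y.1)
      map_add' := fun x y => Subtype.ext (map_add e x.1 y.1) }
  have h4 : NumberField ((L.map e.toAlgHom).restrictScalars K) := NumberField.of_ringEquiv _ _ eL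
  refine ⟨?_, h4, ?_⟩
  · have e1 : Module.finrank M (L.map e.toAlgHom) = m := by
      rw [← h1]
      exact (IntermediateField.intermediateFieldMap e L).toLinearEquiv.finrank_eq.symm
    have e2 : Module.finrank K ((L.map e.toAlgHom).restrictScalars K) =
        Module.finrank K (L.map e.toAlgHom) := rfl
    rw [e2, ← e1, Module.finrank_mul_finrank]
  · rw [← NumberField.discr_eq_discr_of_ringEquiv L eL]
    exact h3

end Pool.Agent.N531.CF
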